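import Pool.Agent.Helper18_PP.StmtsC

/-!
# Squad PP: module BXH, the box closure
-/

noncomputable section

namespace Pool.Agent.PP

namespace H83

variable {K : Type} [Group K] {p : ℕ}

theorem mem_boxS {D : Subgroup (Fin (p + 1) → K)} {k : Fin (p + 1) → K} :
    k ∈ boxS D ↔ ∀ j, ∃ d ∈ D, d j = k j := by
  unfold boxS
  rw [Subgroup.mem_pi]
  constructor
  · intro h j
    obtain ⟨d, hd, hdk⟩ := h j (Set.mem_univ j)
    exact ⟨d, hd, hdk⟩
  · intro h j _
    obtain ⟨d, hd, hdk⟩ := h j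
    exact ⟨d, hd, hdk⟩

theorem le_boxS (D : Subgroup (Fin (p + 1) → K)) : D ≤ boxS D :=
  fun k hk => mem_boxS.2 fun _ => ⟨k, hk, rfl⟩

theorem boxS_map (σ : Fin (p + 1) → Fin (p + 1)) (hσ : Function.Surjective σ)
    (ψ : Fin (p + 1) → MulAut K) (φ : MulAut (Fin (p + 1) → K))
    (hφ : ∀ k j, (φ k) j = ψ j (k (σ j))) (D : Subgroup (Fin (p + 1) → K)) :
    boxS (D.map φ.toMonoidHom) = (boxS D).map φ.toMonoidHom := by
  ext k
  obtain ⟨k', rfl⟩ := φ.surjective k
  have h1 : φ k' ∈ (boxS D).map φ.toMonoidHom ↔ k' ∈ boxS D := by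
    constructor
    · rintro ⟨x, hx, hxk⟩
      have : x = k' := φ.injective hxk
      exact this ▸ hx
    · intro h
      exact ⟨k', h, rfl⟩
  rw [h1, mem_boxS, mem_boxS]
  constructor
  · intro h i
    obtain ⟨j, rfl⟩ := hσ i
    obtain ⟨d, ⟨d', hd', rfl⟩, hdk⟩ := h j
    refine ⟨d', hd', ?_⟩
    have h2 : (φ d') j = (φ k') j := hdk
    rw [hφ, hφ] at h2
    exact (ψ j).injective h2
  · intro h j
    obtain ⟨d, hd, hdk⟩ := h (σ j)
    refine ⟨φ d, ⟨d, hd, rfl⟩, ?_⟩
    rw [hφ, hφ, hdk]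

end H83

open H83

theorem bxh : BxhStmt := by
  intro ℓ K _ _ p αs β₀ α β hα hβ
  refine ⟨?_, le_boxS, ?_, ?_, ?_, ?_, ?_, ?_, ?_⟩
  · intro D hD
    rintro ⟨k, hk⟩
    have h1 := mem_boxS.1 hk
    have h2 : ∀ j, ∃ n : ℕ, (k j) ^ ℓ ^ n = 1 := by
      intro j
      obtain ⟨d, hd, hdk⟩ := h1 j
      obtain ⟨n, hn⟩ := hD ⟨d, hd⟩
      have h3 : d ^ ℓ ^ n = 1 := congrArg Subtype.val hn
      exact ⟨n, by rw [← hdk, ← Pi.pow_apply, h3]; rfl⟩
    choose n hn using h2
    refine ⟨Finset.univ.sup n, Subtype.ext ?_⟩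
    change k ^ ℓ ^ (Finset.univ.sup n) = 1
    funext j
    have h4 : n j ≤ Finset.univ.sup n := Finset.le_sup (Finset.mem_univ j)
    obtain ⟨m, hm⟩ := Nat.exists_eq_add_of_le h4
    rw [Pi.pow_apply, hm, pow_add, pow_mul, hn, one_pow]
    rfl
  · intro D E h k hk
    rw [mem_boxS] at hk ⊢
    intro j
    obtain ⟨d, hd, hdk⟩ := hk j
    exact ⟨d, h hd, hdk⟩
  · intro D
    apply le_antisymm _ (le_boxS _)
    intro k hk
    rw [mem_boxS] at hk ⊢
    intro j
    obtain ⟨d, hd, hdk⟩ := hk j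
    obtain ⟨d', hd', hdk'⟩ := mem_boxS.1 hd j
    exact ⟨d', hd', hdk'.trans hdk⟩
  · ext k
    rw [mem_boxS, Subgroup.mem_bot]
    constructor
    · intro h
      funext j
      obtain ⟨d, hd, hdk⟩ := h j
      rw [Subgroup.mem_bot] at hd
      rw [← hdk, hd]
    · intro h j
      exact ⟨1, Subgroup.one_mem _, by rw [h]⟩
  · intro n D
    exact boxS_map id Function.surjective_id (fun j => MulAut.conj (n j)) (MulAut.conj n)
      (fun k j => rfl) D
  · intro D
    exact boxS_map id Function.surjective_id αs α hα D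
  · intro D
    refine boxS_map (Fin.cons (Fin.last p) fun j : Fin p => j.castSucc) ?_
      (Fin.cons β₀ fun _ : Fin p => 1) β ?_ D
    · intro i
      induction i using Fin.lastCases with
      | last => exact ⟨0, rfl⟩
      | cast j => exact ⟨j.succ, by simp⟩
    · intro k j
      induction j using Fin.cases with
      | zero => simpa using (hβ k).1
      | succ j => simpa using (hβ k).2 j
  · intro s hs D hD hsD
    apply le_antisymm _ (le_boxS _)
    intro k hk
    have h1 := mem_boxS.1 hk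
    refine Subgroup.mem_inf.2 ⟨?_, ?_⟩
    · rw [← hD, mem_boxS]
      intro j
      obtain ⟨d, hd, hdk⟩ := h1 j
      exact ⟨d, (Subgroup.mem_inf.1 hd).1, hdk⟩
    · simp only [Subgroup.mem_iInf]
      intro E hE
      have h2 : ∀ j, ∃ x ∈ Subgroup.normalizer (E : Set (Fin (p + 1) → K)), x j = k j := by
        intro j
        obtain ⟨d, hd, hdk⟩ := h1 j
        have h3 := (Subgroup.mem_inf.1 hd).2
        simp only [Subgroup.mem_iInf] at h3
        exact ⟨d, h3 E hE, hdk⟩
      rw [Subgroup.mem_normalizer_iff]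
      intro h
      constructor
      · intro hh
        change k * h * k⁻¹ ∈ E
        rw [← hs E hE, mem_boxS]
        intro j
        obtain ⟨x, hx, hxk⟩ := h2 j
        rw [Subgroup.mem_normalizer_iff] at hx
        exact ⟨x * h * x⁻¹, (hx h).1 hh, by
          simp only [Pi.mul_apply, Pi.inv_apply, hxk]⟩
      · intro hh
        rw [← hs E hE, mem_boxS]
        intro j
        obtain ⟨x, hx, hxk⟩ := h2 j
        rw [Subgroup.mem_normalizer_iff] at hx
        refine ⟨x⁻¹ * (k * h * k⁻¹) * x, (hx _).2 ?_, ?_⟩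
        · have h3 : x * (x⁻¹ * (k * h * k⁻¹) * x) * x⁻¹ = k * h * k⁻¹ := by group
          rw [h3]
          exact hh
        · simp only [Pi.mul_apply, Pi.inv_apply, hxk]
          group

end Pool.Agent.PP
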