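import Pool.Agent.Helper91_PP.Statements

/-!
# Module K1 of MP_9863c1_co: vanishing of the first homology modulo 2 from Euler's formula
-/

namespace Helper83_PP

open H91PP

section

variable {V E : Type}

open Classical in
/-- the incidence matrix -/
noncomputable def inc (a b : E → V) : Matrix V E (ZMod 2) :=
  Matrix.of fun v e => if a e = v ∨ b e = v then 1 else 0

open Classical in
lemma inc_mulVec [Fintype E] (a b : E → V) (z : E → ZMod 2) (v : V) :
    (inc a b).mulVec z v = ∑ e, if a e = v ∨ b e = v then z e else 0 := by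
  simp [inc, Matrix.mulVec, dotProduct]

open Classical in
lemma inc_transpose_mulVec [Fintype V] (a b : E → V) (hab : ∀ e, a e ≠ b e) (f : V → ZMod 2) (e : E) :
    (inc a b).transpose.mulVec f e = f (a e) + f (b e) := by
  have h1 : ∀ v, (if a e = v ∨ b e = v then f v else 0) =
      (if a e = v then f v else 0) + (if b e = v then f v else 0) := by
    intro v
    by_cases h1 : a e = v
    · by_cases h2 : b e = v
      · exact absurd (h1.trans h2.symm) (hab e)
      · simp [h1, h2]
    · by_cases h2 : b e = v
      · simp [h1, h2]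
      · simp [h1, h2]
  simp only [inc, Matrix.mulVec, dotProduct, Matrix.transpose_apply, Matrix.of_apply, ite_mul,
    one_mul, zero_mul]
  rw [Finset.sum_congr rfl (fun v _ => h1 v), Finset.sum_add_distrib]
  simp

lemma zmod2_add_eq_zero {x y : ZMod 2} : x + y = 0 ↔ x = y := by
  revert x y; decide

lemma finrank_ker_conn [Fintype V] (a b : E → V) (hab : ∀ e, a e ≠ b e) [Nonempty V]
    (hconn : ∀ A : Set V, (∀ e, a e ∈ A ↔ b e ∈ A) → A = ∅ ∨ A = Set.univ) :
    Module.finrank (ZMod 2) (LinearMap.ker ((inc a b).transpose.mulVecLin)) = 1 := by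
  have hker : LinearMap.ker ((inc a b).transpose.mulVecLin) =
      Submodule.span (ZMod 2) {(fun _ => 1 : V → ZMod 2)} := by
    ext f
    rw [LinearMap.mem_ker, Submodule.mem_span_singleton]
    constructor
    · intro hf
      have h1 : ∀ e, f (a e) = f (b e) := by
        intro e
        have := congrFun hf e
        rw [Matrix.mulVecLin_apply, inc_transpose_mulVec a b hab] at this
        exact zmod2_add_eq_zero.1 this
      rcases hconn {v | f v = 0} (fun e => by simp [h1 e]) with h | h
      · refine ⟨1, ?_⟩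
        funext v
        have h2 : v ∉ {v | f v = 0} := by rw [h]; simp
        have h3 : ∀ x : ZMod 2, x ≠ 0 → x = 1 := by decide
        simpa using (h3 _ h2).symm
      · refine ⟨0, ?_⟩
        funext v
        have h2 : v ∈ {v | f v = 0} := by rw [h]; simp
        simpa using h2.symm
    · rintro ⟨c, rfl⟩
      funext e
      rw [Matrix.mulVecLin_apply, inc_transpose_mulVec a b hab]
      exact zmod2_add_eq_zero.2 rfl
  rw [hker]
  refine finrank_span_singleton ?_
  intro h0
  have := congrFun h0 (Classical.arbitrary V)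
  simp at this

end

open Classical in
lemma even_ncard_sum {E : Type} [Fintype E] (P : E → Prop) (h : Even (Set.ncard {e | P e})) :
    (∑ e, if P e then (1 : ZMod 2) else 0) = 0 := by
  have h1 : (∑ e, if P e then (1 : ZMod 2) else 0) = ((Set.ncard {e | P e} : ℕ) : ZMod 2) := by
    rw [Finset.sum_boole]
    congr 1
    rw [← Set.ncard_coe_finset]
    congr 1
    ext e
    simp
  rw [h1]
  exact (ZMod.natCast_eq_zero_iff_even).2 h

open Classical in
/-- Module K1. -/
theorem hom : HomStatement := by
  intro V E T _ _ _ a b l r hab hlr hev hconnV hconnT hV hT hcard Z hZ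
  have := Fintype.ofFinite V
  have := Fintype.ofFinite E
  have := Fintype.ofFinite T
  have := hV
  have := hT
  set M1 := inc a b with hM1
  set M2 := inc l r with hM2
  have r1 := (M1.transpose.mulVecLin).finrank_range_add_finrank_ker
  rw [finrank_ker_conn a b hab hconnV, Module.finrank_fintype_fun_eq_card] at r1
  have r2 := (M2.transpose.mulVecLin).finrank_range_add_finrank_ker
  rw [finrank_ker_conn l r hlr hconnT, Module.finrank_fintype_fun_eq_card] at r2
  have r3 := (M1.mulVecLin).finrank_range_add_finrank_ker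
  rw [Module.finrank_fintype_fun_eq_card] at r3
  have r4 : Module.finrank (ZMod 2) (LinearMap.range M1.mulVecLin) =
      Module.finrank (ZMod 2) (LinearMap.range M1.transpose.mulVecLin) :=
    (Matrix.rank_transpose M1).symm
  rw [Nat.card_eq_fintype_card, Nat.card_eq_fintype_card, Nat.card_eq_fintype_card] at hcard
  -- the boundary of a boundary vanishes
  have hprod : M1 * M2.transpose = 0 := by
    ext v t
    have h1 := even_ncard_sum (fun e => (l e = t ∨ r e = t) ∧ (a e = v ∨ b e = v)) (hev t v)
    rw [Matrix.mul_apply, Matrix.zero_apply, ← h1]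
    refine Finset.sum_congr rfl (fun e _ => ?_)
    simp only [hM1, hM2, inc, Matrix.transpose_apply, Matrix.of_apply]
    by_cases c1 : a e = v ∨ b e = v
    · by_cases c2 : l e = t ∨ r e = t
      · rw [if_pos c1, if_pos c2, if_pos ⟨c2, c1⟩, one_mul]
      · rw [if_pos c1, if_neg c2, if_neg (fun h => c2 h.1), mul_zero]
    · rw [if_neg c1, zero_mul, if_neg (fun h => c1 h.2)]
  have hle : LinearMap.range M2.transpose.mulVecLin ≤ LinearMap.ker M1.mulVecLin := by
    rintro _ ⟨N, rfl⟩
    rw [LinearMap.mem_ker, Matrix.mulVecLin_apply, Matrix.mulVecLin_apply, Matrix.mulVec_mulVec,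
      hprod, Matrix.zero_mulVec]
  have heq : LinearMap.range M2.transpose.mulVecLin = LinearMap.ker M1.mulVecLin :=
    Submodule.eq_of_le_of_finrank_eq hle (by omega)
  have hz : (fun e => if e ∈ Z then (1 : ZMod 2) else 0) ∈ LinearMap.ker M1.mulVecLin := by
    rw [LinearMap.mem_ker, Matrix.mulVecLin_apply]
    funext v
    rw [inc_mulVec, Pi.zero_apply]
    refine Eq.trans (Finset.sum_congr rfl (fun e _ => ?_)) (even_ncard_sum _ (hZ v))
    by_cases c1 : a e = v ∨ b e = v
    · by_cases c2 : e ∈ Z
      · rw [if_pos c1, if_pos c2, if_pos ⟨c2, c1⟩]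
      · rw [if_pos c1, if_neg c2, if_neg (fun h => c2 h.1)]
    · rw [if_neg c1, if_neg (fun h => c1 h.2)]
  rw [← heq] at hz
  obtain ⟨N, hN⟩ := hz
  refine ⟨{t | N t = 1}, fun e => ?_⟩
  have h1 := congrFun hN e
  rw [Matrix.mulVecLin_apply, inc_transpose_mulVec l r hlr] at h1
  have h2 : ∀ x y : ZMod 2, (x + y = 1 ↔ ¬ (x = 1 ↔ y = 1)) := by decide
  have h3 := h2 (N (l e)) (N (r e))
  change e ∈ Z ↔ ¬ (N (l e) = 1 ↔ N (r e) = 1)
  rw [← h3, h1]
  by_cases c2 : e ∈ Z
  · simp [c2]
  · simp [c2]

end Helper83_PP
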