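import Pool.Agent.Helper83_PP.Hom

/-!
# Modules B1 and B2 of MP_9863c1_co: basic facts on regions, splitting along a chord
-/

namespace Helper83_PP

open H91PP H91PP.TriSphere

section gen

open Classical in
lemma inc_mul_inc {V E T : Type} [Fintype E] (a b : E → V) (l r : E → T)
    (hev : ∀ t v, Even (Set.ncard {e | (l e = t ∨ r e = t) ∧ (a e = v ∨ b e = v)})) :
    inc a b * (inc l r).transpose = 0 := by
  ext v t
  have h1 := even_ncard_sum (fun e => (l e = t ∨ r e = t) ∧ (a e = v ∨ b e = v)) (hev t v)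
  rw [Matrix.mul_apply, Matrix.zero_apply, ← h1]
  refine Finset.sum_congr rfl (fun e _ => ?_)
  simp only [inc, Matrix.transpose_apply, Matrix.of_apply]
  by_cases c1 : a e = v ∨ b e = v
  · by_cases c2 : l e = t ∨ r e = t
    · rw [if_pos c1, if_pos c2, if_pos ⟨c2, c1⟩, one_mul]
    · rw [if_pos c1, if_neg c2, if_neg (fun h => c2 h.1), mul_zero]
  · rw [if_neg c1, zero_mul, if_neg (fun h => c1 h.2)]

open Classical in
/-- the boundary of a set of triangles is even -/
lemma bd_even_gen {V E T : Type} [Finite E] [Finite T] (a b : E → V) (l r : E → T)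
    (hlr : ∀ e, l e ≠ r e)
    (hev : ∀ t v, Even (Set.ncard {e | (l e = t ∨ r e = t) ∧ (a e = v ∨ b e = v)}))
    (N : Set T) (v : V) :
    Even (Set.ncard {e | ¬ (l e ∈ N ↔ r e ∈ N) ∧ (a e = v ∨ b e = v)}) := by
  have := Fintype.ofFinite E
  have := Fintype.ofFinite T
  have h1 : (inc a b).mulVec ((inc l r).transpose.mulVec
      (fun t => if t ∈ N then (1 : ZMod 2) else 0)) v = 0 := by
    rw [Matrix.mulVec_mulVec, inc_mul_inc a b l r hev, Matrix.zero_mulVec]; rfl
  rw [inc_mulVec] at h1
  have h2 : (∑ e, if (¬ (l e ∈ N ↔ r e ∈ N) ∧ (a e = v ∨ b e = v)) then (1 : ZMod 2) else 0) = 0 := by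
    refine Eq.trans (Finset.sum_congr rfl (fun e _ => ?_)) h1
    rw [inc_transpose_mulVec l r hlr]
    by_cases c1 : a e = v ∨ b e = v
    · by_cases c2 : l e ∈ N
      · by_cases c3 : r e ∈ N
        · have : (1 : ZMod 2) + 1 = 0 := by decide
          simp [c1, c2, c3, this]
        · simp [c1, c2, c3]
      · by_cases c3 : r e ∈ N
        · simp [c1, c2, c3]
        · simp [c1, c2, c3]
    · rw [if_neg c1, if_neg (fun h => c1 h.2)]
  rw [Finset.sum_boole] at h2
  have h3 := (ZMod.natCast_eq_zero_iff_even).1 h2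
  rw [← Set.ncard_coe_finset] at h3
  convert h3 using 2
  ext e
  simp

end gen

variable (S : TriSphere)

/-! ### Triangles -/

lemma s_inj (t : S.T) : Function.Injective (S.s t) := by
  intro i j hij
  have hi := S.s_ends t i
  have hj := S.s_ends t j
  rw [hij] at hi
  have hc := S.c_inj t
  have key : ∀ i j : Fin 3, (i = j + 1 ∧ i + 1 = j) → False := by decide
  rcases hi with ⟨h1, h2⟩ | ⟨h1, h2⟩
  · rcases hj with ⟨h3, h4⟩ | ⟨h3, h4⟩
    · exact hc (h1.symm.trans h3)
    · exact (key i j ⟨hc (h1.symm.trans h3), hc (h2.symm.trans h4)⟩).elim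
  · rcases hj with ⟨h3, h4⟩ | ⟨h3, h4⟩
    · exact (key i j ⟨hc (h2.symm.trans h4), hc (h1.symm.trans h3)⟩).elim
    · exact hc (h2.symm.trans h4)

lemma side_at (t : S.T) (i : Fin 3) (v : S.V) :
    (S.a (S.s t i) = v ∨ S.b (S.s t i) = v) ↔ (S.c t i = v ∨ S.c t (i + 1) = v) := by
  rcases S.s_ends t i with ⟨h1, h2⟩ | ⟨h1, h2⟩
  · rw [h1, h2]
  · rw [h1, h2, or_comm]

lemma tri_even (t : S.T) (v : S.V) :
    Even (Set.ncard {e | (S.l e = t ∨ S.r e = t) ∧ (S.a e = v ∨ S.b e = v)}) := by
  have h1 : {e | (S.l e = t ∨ S.r e = t) ∧ (S.a e = v ∨ S.b e = v)} =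
      S.s t '' {i | S.c t i = v ∨ S.c t (i + 1) = v} := by
    ext e
    simp only [Set.mem_ofPred_eq, Set.mem_image]
    constructor
    · rintro ⟨h | h, hv⟩
      · obtain ⟨i, hi⟩ := S.l_s e
        rw [h] at hi
        refine ⟨i, ?_, hi⟩
        rwa [← side_at, hi]
      · obtain ⟨i, hi⟩ := S.r_s e
        rw [h] at hi
        refine ⟨i, ?_, hi⟩
        rwa [← side_at, hi]
    · rintro ⟨i, hi, rfl⟩
      exact ⟨S.s_lr t i, (side_at S t i v).2 hi⟩
  rw [h1, Set.ncard_image_of_injective _ (s_inj S t)]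
  by_cases hv : ∃ k, S.c t k = v
  · obtain ⟨k, rfl⟩ := hv
    have h2 : {i | S.c t i = S.c t k ∨ S.c t (i + 1) = S.c t k} = {k, k + 2} := by
      ext i
      simp only [Set.mem_ofPred_eq, Set.mem_insert_iff, Set.mem_singleton_iff,
        (S.c_inj t).eq_iff]
      have key : ∀ i k : Fin 3, (i = k ∨ i + 1 = k) ↔ (i = k ∨ i = k + 2) := by decide
      exact key i k
    have key : ∀ k : Fin 3, k ≠ k + 2 := by decide
    rw [h2, Set.ncard_pair (key k)]
    decide
  · push Not at hv
    have h2 : {i | S.c t i = v ∨ S.c t (i + 1) = v} = ∅ := by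
      ext i
      simp [hv i, hv (i + 1)]
    rw [h2, Set.ncard_empty]
    decide

lemma bd_even (N : Set S.T) (v : S.V) :
    Even (Set.ncard {e | e ∈ S.bd N ∧ (S.a e = v ∨ S.b e = v)}) := by
  have := S.fE
  have := S.fT
  exact bd_even_gen S.a S.b S.l S.r S.lr (tri_even S) N v

/-! ### Walks -/

variable {S}

lemma isW_head {u w : S.V} {L : List (S.V × S.E)} (h : S.IsW u L w) :
    L.map Prod.fst ++ [w] = u :: (L.map Prod.fst ++ [w]).tail := by
  cases L with
  | nil =>
    have h' : u = w := h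
    subst h'; rfl
  | cons p L =>
    obtain ⟨h1, -⟩ := h
    subst h1; rfl

lemma isW_append {x y z : S.V} {A B : List (S.V × S.E)} (h1 : S.IsW x A y) (h2 : S.IsW y B z) :
    S.IsW x (A ++ B) z := by
  induction A generalizing x with
  | nil =>
    have h' : x = y := h1
    subst h'; exact h2
  | cons p A ih =>
    obtain ⟨h3, v', h4, h5⟩ := h1
    exact ⟨h3, v', h4, ih h5⟩

lemma joins_symm {e : S.E} {x y : S.V} (h : S.Joins e x y) : S.Joins e y x := h.symm

lemma joins_ne {e : S.E} {x y : S.V} (h : S.Joins e x y) : x ≠ y := by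
  rcases h with ⟨h1, h2⟩ | ⟨h1, h2⟩
  · rw [← h1, ← h2]; exact S.ab e
  · rw [← h1, ← h2]; exact (S.ab e).symm

lemma joins_at {e : S.E} {x y : S.V} (h : S.Joins e x y) (v : S.V) :
    (S.a e = v ∨ S.b e = v) ↔ (x = v ∨ y = v) := by
  rcases h with ⟨h1, h2⟩ | ⟨h1, h2⟩
  · rw [h1, h2]
  · rw [h1, h2, or_comm]

lemma exists_rev {u w : S.V} {Q : List (S.V × S.E)} (h : S.IsW u Q w) :
    ∃ Q' : List (S.V × S.E), S.IsW w Q' u ∧
      Q'.map Prod.fst ++ [u] = (Q.map Prod.fst ++ [w]).reverse ∧
      Q'.map Prod.snd = (Q.map Prod.snd).reverse := by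
  induction Q generalizing u with
  | nil =>
    have h' : u = w := h
    subst h'
    exact ⟨[], rfl, rfl, rfl⟩
  | cons p Q ih =>
    obtain ⟨h1, v', h2, h3⟩ := h
    subst h1
    obtain ⟨Q', i1, i2, i3⟩ := ih h3
    refine ⟨Q' ++ [(v', p.2)], isW_append i1 ⟨rfl, p.1, joins_symm h2, rfl⟩, ?_, ?_⟩
    · rw [List.map_append, List.map_cons, List.map_nil, i2]
      simp
    · rw [List.map_append, i3]
      simp

lemma ends_mem {u w : S.V} {L : List (S.V × S.E)} (h : S.IsW u L w) {e : S.E}
    (he : e ∈ L.map Prod.snd) {v : S.V} (hv : S.a e = v ∨ S.b e = v) :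
    v ∈ L.map Prod.fst ++ [w] := by
  induction L generalizing u with
  | nil => simp at he
  | cons p L ih =>
    obtain ⟨h1, v', h2, h3⟩ := h
    rw [List.map_cons, List.mem_cons] at he
    rw [List.map_cons, List.cons_append, List.mem_cons]
    rcases he with rfl | he
    · rcases (joins_at h2 v).1 hv with h4 | h4
      · exact Or.inl h4.symm
      · right
        rw [isW_head h3, ← h4]
        exact List.mem_cons_self
    · exact Or.inr (ih h3 he)

lemma edges_nodup {u w : S.V} {L : List (S.V × S.E)} (h : S.IsW u L w)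
    (hn : (L.map Prod.fst ++ [w]).Nodup) : (L.map Prod.snd).Nodup := by
  induction L generalizing u with
  | nil => simp
  | cons p L ih =>
    obtain ⟨h1, v', h2, h3⟩ := h
    rw [List.map_cons, List.cons_append, List.nodup_cons] at hn
    rw [List.map_cons, List.nodup_cons]
    refine ⟨fun hmem => hn.1 (ends_mem h3 hmem ((joins_at h2 p.1).2 (Or.inl rfl))), ih h3 hn.2⟩

open Classical in
lemma walk_count {u w : S.V} {L : List (S.V × S.E)} (h : S.IsW u L w) (v : S.V) :
    (L.map Prod.snd).countP (fun e => decide (S.a e = v ∨ S.b e = v)) =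
      (L.map Prod.fst).count v + (L.map Prod.fst ++ [w]).tail.count v := by
  induction L generalizing u with
  | nil => simp
  | cons p L ih =>
    obtain ⟨h1, v', h2, h3⟩ := h
    rw [List.map_cons, List.countP_cons, ih h3, List.map_cons, List.cons_append, List.tail_cons,
      List.count_cons]
    have e1 : (L.map Prod.fst ++ [w]).count v =
        (L.map Prod.fst ++ [w]).tail.count v + if v' = v then 1 else 0 := by
      conv_lhs => rw [isW_head h3, List.count_cons]
      simp
    rw [e1]
    have e2 := joins_at h2 v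
    have e3 := joins_ne h2
    by_cases c1 : p.1 = v
    · have c2 : v' ≠ v := fun h4 => e3 (c1.trans h4.symm)
      have c3 : S.a p.2 = v ∨ S.b p.2 = v := e2.2 (Or.inl c1)
      simp only [c1, c2, c3, decide_true, if_true, if_false, beq_self_eq_true]
      omega
    · by_cases c2 : v' = v
      · have c3 : S.a p.2 = v ∨ S.b p.2 = v := e2.2 (Or.inr c2)
        have c4 : (p.1 == v) = false := by simpa using c1
        simp only [c2, c3, c4, decide_true, if_true]
        simp
        omega
      · have c3 : ¬ (S.a p.2 = v ∨ S.b p.2 = v) := fun h4 => (e2.1 h4).elim c1 c2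
        have c4 : (p.1 == v) = false := by simpa using c1
        simp only [c2, c3, c4, decide_false, if_false]
        simp

lemma ncard_list {α : Type} (l : List α) (hl : l.Nodup) (P : α → Prop) [DecidablePred P] :
    Set.ncard {e | e ∈ l ∧ P e} = l.countP (fun e => decide (P e)) := by
  classical
  have h1 : {e | e ∈ l ∧ P e} = ((l.filter (fun e => decide (P e))).toFinset : Set α) := by
    ext e; simp
  rw [h1, Set.ncard_coe_finset, List.toFinset_card_of_nodup (hl.filter _),
    List.countP_eq_length_filter]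

/-- the edge set of a closed walk without repeated edges is even -/
lemma cyc_even {u : S.V} {L : List (S.V × S.E)} (h : S.IsW u L u)
    (he : (L.map Prod.snd).Nodup) (v : S.V) :
    Even (Set.ncard {e | e ∈ L.map Prod.snd ∧ (S.a e = v ∨ S.b e = v)}) := by
  classical
  rw [ncard_list _ he (fun e => S.a e = v ∨ S.b e = v), walk_count h v]
  have e1 : (L.map Prod.fst ++ [u]).count v =
      (L.map Prod.fst ++ [u]).tail.count v + if u = v then 1 else 0 := by
    conv_lhs => rw [isW_head h, List.count_cons]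
    simp
  rw [List.count_append, List.count_cons, List.count_nil] at e1
  have e2 : (if (u == v) = true then 1 else 0) = if u = v then 1 else 0 := by simp
  rw [e2] at e1
  have e3 : (L.map Prod.fst ++ [u]).tail.count v = (L.map Prod.fst).count v := by omega
  rw [e3]
  exact ⟨_, rfl⟩

lemma isW_get {u w : S.V} {L : List (S.V × S.E)} (h : S.IsW u L w) :
    ∀ i (hi : i < L.length), ∃ y, S.Joins (L[i].2) (L[i].1) y ∧
      (∀ (h' : i + 1 < L.length), y = (L[i + 1]).1) ∧ (i + 1 = L.length → y = w) := by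
  induction L generalizing u with
  | nil => intro i hi; simp at hi
  | cons p L ih =>
    obtain ⟨h1, v', h2, h3⟩ := h
    intro i hi
    cases i with
    | zero =>
      refine ⟨v', h2, fun h' => ?_, fun h' => ?_⟩
      · cases L with
        | nil => simp at h'
        | cons q L => exact h3.1
      · cases L with
        | nil => exact h3
        | cons q L => simp at h'
    | succ i =>
      obtain ⟨y, y1, y2, y3⟩ := ih h3 i (by simpa using hi)
      refine ⟨y, y1, fun h' => ?_, fun h' => ?_⟩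
      · exact y2 (by simpa using h')
      · exact y3 (by simpa using h')

/-- a simple closed walk has no proper nonempty even subset -/
lemma cyc_min {u : S.V} {L : List (S.V × S.E)} (h : S.IsW u L u)
    (hv : (L.map Prod.fst).Nodup) (Z : Set S.E)
    (hZ : ∀ e ∈ Z, e ∈ L.map Prod.snd)
    (hev : ∀ v, Even (Set.ncard {e | e ∈ Z ∧ (S.a e = v ∨ S.b e = v)})) :
    Z = ∅ ∨ ∀ e ∈ L.map Prod.snd, e ∈ Z := by
  have hinj : ∀ i j (hi : i < L.length) (hj : j < L.length), L[i].1 = L[j].1 → i = j := by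
    intro i j hi hj hij
    have h1 : (L.map Prod.fst)[i]'(by simpa using hi) = (L.map Prod.fst)[j]'(by simpa using hj) := by
      simpa using hij
    exact (hv.getElem_inj_iff).1 h1
  have key : ∀ i (hi : i + 1 < L.length), (L[i].2 ∈ Z ↔ L[i + 1].2 ∈ Z) := by
    intro i hi
    obtain ⟨y, y1, y2, -⟩ := isW_get h i (by omega)
    obtain ⟨y', y1', -, -⟩ := isW_get h (i + 1) hi
    have hy := y2 hi
    subst hy
    have hsub : ∀ g ∈ Z, (S.a g = L[i + 1].1 ∨ S.b g = L[i + 1].1) →
        g = L[i].2 ∨ g = L[i + 1].2 := by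
      intro g hg hgv
      obtain ⟨p, hp, hpg⟩ := List.mem_map.1 (hZ g hg)
      obtain ⟨j, hj, hjp⟩ := List.getElem_of_mem hp
      subst hjp
      subst hpg
      obtain ⟨x, x1, x2, x3⟩ := isW_get h j hj
      rcases (joins_at x1 _).1 hgv with h4 | h4
      · have := hinj _ _ hj hi h4
        subst this
        exact Or.inr rfl
      · by_cases c : j + 1 < L.length
        · rw [x2 c] at h4
          have := hinj _ _ c hi h4
          have hji : j = i := by omega
          subst hji
          exact Or.inl rfl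
        · have hlen : j + 1 = L.length := by omega
          rw [x3 hlen] at h4
          have hL0 : 0 < L.length := by omega
          have h5 : L[0].1 = u := by
            have := isW_head h
            cases L with
            | nil => simp at hL0
            | cons q L => exact h.1.symm
          rw [← h5] at h4
          have := hinj _ _ hL0 hi h4
          omega
    have at1 : S.a (L[i].2) = L[i + 1].1 ∨ S.b (L[i].2) = L[i + 1].1 :=
      (joins_at y1 _).2 (Or.inr rfl)
    have at2 : S.a (L[i + 1].2) = L[i + 1].1 ∨ S.b (L[i + 1].2) = L[i + 1].1 :=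
      (joins_at y1' _).2 (Or.inl rfl)
    have hE := hev (L[i + 1].1)
    by_contra hcon
    have hone : ∃ g, {e | e ∈ Z ∧ (S.a e = L[i + 1].1 ∨ S.b e = L[i + 1].1)} = {g} := by
      by_cases c1 : L[i].2 ∈ Z
      · have c2 : L[i + 1].2 ∉ Z := fun c2 => hcon (iff_of_true c1 c2)
        refine ⟨L[i].2, ?_⟩
        ext e
        simp only [Set.mem_ofPred_eq, Set.mem_singleton_iff]
        constructor
        · rintro ⟨h6, h7⟩
          rcases hsub e h6 h7 with h8 | h8
          · exact h8
          · rw [h8] at h6; exact (c2 h6).elim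
        · rintro rfl
          exact ⟨c1, at1⟩
      · have c2 : L[i + 1].2 ∈ Z := by
          by_contra c2
          exact hcon (iff_of_false c1 c2)
        refine ⟨L[i + 1].2, ?_⟩
        ext e
        simp only [Set.mem_ofPred_eq, Set.mem_singleton_iff]
        constructor
        · rintro ⟨h6, h7⟩
          rcases hsub e h6 h7 with h8 | h8
          · rw [h8] at h6; exact (c1 h6).elim
          · exact h8
        · rintro rfl
          exact ⟨c2, at2⟩
    obtain ⟨g, hg⟩ := hone
    rw [hg, Set.ncard_singleton] at hE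
    exact absurd hE (by decide)
  by_cases hL : L = []
  · left
    ext e
    simp only [Set.mem_empty_iff_false, iff_false]
    intro he
    have := hZ e he
    rw [hL] at this
    simp at this
  have hL0 : 0 < L.length := List.length_pos_iff.2 hL
  have key2 : ∀ i (hi : i < L.length), (L[0].2 ∈ Z ↔ L[i].2 ∈ Z) := by
    intro i
    induction i with
    | zero => intro _; exact Iff.rfl
    | succ i ih => intro hi; exact (ih (by omega)).trans (key i hi)
  by_cases c : L[0].2 ∈ Z
  · right
    intro e he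
    obtain ⟨p, hp, rfl⟩ := List.mem_map.1 he
    obtain ⟨j, hj, rfl⟩ := List.getElem_of_mem hp
    exact (key2 j hj).1 c
  · left
    ext e
    simp only [Set.mem_empty_iff_false, iff_false]
    intro he
    obtain ⟨p, hp, rfl⟩ := List.mem_map.1 (hZ e he)
    obtain ⟨j, hj, rfl⟩ := List.getElem_of_mem hp
    exact c ((key2 j hj).2 he)

/-! ### Regions -/

lemma region_dual {R : Set S.T} {L : List (S.V × S.E)} {u : S.V} (h : S.IsRegion R L u)
    (N : Set S.T) (hN : ∀ e ∈ S.bd N, e ∈ S.bd R) :
    N = ∅ ∨ N = Set.univ ∨ N = R ∨ N = Rᶜ := by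
  have h1 := cyc_min h.walk h.vnd (S.bd N) (fun e he => (h.bd_eq e).1 (hN e he)) (bd_even S N)
  rcases h1 with h1 | h1
  · have h2 : ∀ e, S.l e ∈ N ↔ S.r e ∈ N := by
      intro e
      by_contra hcon
      have : e ∈ S.bd N := hcon
      rw [h1] at this
      exact this
    rcases S.conn N h2 with h3 | h3
    · exact Or.inl h3
    · exact Or.inr (Or.inl h3)
  · have h2 : ∀ e, S.l e ∈ {t | t ∈ N ↔ t ∈ R} ↔ S.r e ∈ {t | t ∈ N ↔ t ∈ R} := by
      intro e
      have h3 : ¬ (S.l e ∈ N ↔ S.r e ∈ N) ↔ ¬ (S.l e ∈ R ↔ S.r e ∈ R) :=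
        ⟨fun h4 => hN e h4, fun h4 => h1 e ((h.bd_eq e).1 h4)⟩
      simp only [Set.mem_ofPred_eq]
      tauto
    rcases S.conn _ h2 with h3 | h3
    · right; right; right
      ext t
      have : t ∉ {t | t ∈ N ↔ t ∈ R} := by rw [h3]; simp
      simp only [Set.mem_ofPred_eq] at this
      rw [Set.mem_compl_iff]
      tauto
    · right; right; left
      ext t
      have : t ∈ {t | t ∈ N ↔ t ∈ R} := by rw [h3]; trivial
      exact this

lemma corner_of_l (e : S.E) {v : S.V} (hv : S.a e = v ∨ S.b e = v) : ∃ i, S.c (S.l e) i = v := by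
  obtain ⟨i, hi⟩ := S.l_s e
  rw [← hi] at hv
  rcases (side_at S _ _ _).1 hv with h | h
  · exact ⟨_, h⟩
  · exact ⟨_, h⟩

lemma corner_of_r (e : S.E) {v : S.V} (hv : S.a e = v ∨ S.b e = v) : ∃ i, S.c (S.r e) i = v := by
  obtain ⟨i, hi⟩ := S.r_s e
  rw [← hi] at hv
  rcases (side_at S _ _ _).1 hv with h | h
  · exact ⟨_, h⟩
  · exact ⟨_, h⟩

lemma gr_adj_tri {R : Set S.T} {t : S.T} (ht : t ∈ R) (i : Fin 3) :
    (S.gr R).Adj (S.c t i) (S.c t (i + 1)) := by
  refine ⟨S.s t i, ?_, S.s_ends t i⟩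
  rcases S.s_lr t i with h | h
  · exact Or.inl (by rw [h]; exact ht)
  · exact Or.inr (by rw [h]; exact ht)

lemma gr_reach_tri {R : Set S.T} {t : S.T} (ht : t ∈ R) (i : Fin 3) :
    (S.gr R).Reachable (S.c t 0) (S.c t i) := by
  have h0 := gr_adj_tri ht 0
  have h2 := gr_adj_tri ht 2
  fin_cases i
  · exact SimpleGraph.Reachable.refl _
  · exact h0.reachable
  · exact h2.symm.reachable

lemma region_ne {R : Set S.T} {L : List (S.V × S.E)} {u : S.V} (h : S.IsRegion R L u) :
    u ∈ L.map Prod.fst := by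
  have h1 := h.walk
  have h2 := h.ne
  cases L with
  | nil => exact (h2 rfl).elim
  | cons p L =>
    obtain ⟨h3, -⟩ := h1
    rw [h3]; simp

lemma region_bdV {R : Set S.T} {L : List (S.V × S.E)} {u : S.V} (h : S.IsRegion R L u) :
    ∀ x ∈ L.map Prod.fst, x ∈ S.VR R := by
  intro x hx
  obtain ⟨p, hp, rfl⟩ := List.mem_map.1 hx
  have h1 : p.2 ∈ S.bd R := (h.bd_eq _).2 (List.mem_map.2 ⟨p, hp, rfl⟩)
  obtain ⟨j, hj, rfl⟩ := List.getElem_of_mem hp
  obtain ⟨y, y1, -, -⟩ := isW_get h.walk j hj
  have hat : S.a (L[j].2) = L[j].1 ∨ S.b (L[j].2) = L[j].1 := (joins_at y1 _).2 (Or.inl rfl)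
  have h2 : S.l (L[j].2) ∈ R ∨ S.r (L[j].2) ∈ R := by
    by_contra hcon
    push Not at hcon
    exact h1 (iff_of_false hcon.1 hcon.2)
  rcases h2 with h2 | h2
  · obtain ⟨i, hi⟩ := corner_of_l _ hat
    exact ⟨_, h2, i, hi⟩
  · obtain ⟨i, hi⟩ := corner_of_r _ hat
    exact ⟨_, h2, i, hi⟩

lemma region_conn {R : Set S.T} {L : List (S.V × S.E)} {u : S.V} (h : S.IsRegion R L u) :
    ∀ x ∈ S.VR R, (S.gr R).Reachable u x := by
  set N : Set S.T := {t | t ∈ R ∧ (S.gr R).Reachable u (S.c t 0)} with hN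
  have hsub : ∀ e ∈ S.bd N, e ∈ S.bd R := by
    intro e he hiff
    apply he
    by_cases c : S.l e ∈ R
    · have c' : S.r e ∈ R := hiff.1 c
      obtain ⟨i, hi⟩ := corner_of_l e (Or.inl rfl)
      obtain ⟨j, hj⟩ := corner_of_r e (Or.inl rfl)
      have r1 := gr_reach_tri c i
      have r2 := gr_reach_tri c' j
      rw [hi] at r1
      rw [hj] at r2
      constructor
      · rintro ⟨-, h2⟩
        exact ⟨c', (h2.trans r1).trans r2.symm⟩
      · rintro ⟨-, h2⟩
        exact ⟨c, (h2.trans r2).trans r1.symm⟩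
    · have c' : S.r e ∉ R := fun h3 => c (hiff.2 h3)
      exact iff_of_false (fun h4 => c h4.1) (fun h4 => c' h4.1)
  have hne : N.Nonempty := by
    obtain ⟨t, ht, i, hi⟩ := region_bdV h u (region_ne h)
    refine ⟨t, ht, ?_⟩
    have := gr_reach_tri ht i
    rw [hi] at this
    exact this.symm
  have hNR : N ⊆ R := fun t ht => ht.1
  have hall : R ⊆ N := by
    rcases region_dual h N hsub with h1 | h1 | h1 | h1
    · exact absurd h1 hne.ne_empty
    · rw [h1]; exact Set.subset_univ _
    · rw [← h1]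
    · obtain ⟨t, ht⟩ := hne
      have h2 := hNR ht
      rw [h1] at ht
      exact (ht h2).elim
  rintro x ⟨t, ht, i, rfl⟩
  exact (hall ht).2.trans (gr_reach_tri ht i)

lemma region_intTri {R : Set S.T} {L : List (S.V × S.E)} {u : S.V} (h : S.IsRegion R L u) :
    ∀ x ∈ S.VR R, x ∉ L.map Prod.fst → ∀ t i, S.c t i = x → t ∈ R := by
  rintro x ⟨t0, ht0, i0, hi0⟩ hx t i hi
  by_contra hcon
  obtain ⟨e, he, hbd⟩ := S.link x R ⟨t0, ht0, i0, hi0⟩ ⟨t, hcon, i, hi⟩
  have h1 : e ∈ L.map Prod.snd := (h.bd_eq e).1 hbd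
  have h2 := ends_mem h.walk h1 he
  rw [List.mem_append, List.mem_singleton] at h2
  rcases h2 with h2 | h2
  · exact hx h2
  · rw [h2] at hx; exact hx (region_ne h)

/-- Module B1. -/
theorem regionFacts (S : TriSphere) : RegionFacts S where
  conn := fun _ _ _ h => region_conn h
  intTri := fun _ _ _ h => region_intTri h
  bdV := fun _ _ _ h => region_bdV h

end Helper83_PP
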