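import Pool.Agent.Helper83_PP.Region

/-!
# Module B2 of MP_9863c1_co: splitting a region along a chord
-/

namespace Helper83_PP

open H91PP H91PP.TriSphere

variable {S : TriSphere}

lemma isW_ne_nil {x y : S.V} {A : List (S.V × S.E)} (h : S.IsW x A y) (hxy : x ≠ y) :
    A ≠ [] := by
  rintro rfl
  exact hxy h

lemma isW_head_mem {x y : S.V} {A : List (S.V × S.E)} (h : S.IsW x A y) (hA : A ≠ []) :
    x ∈ A.map Prod.fst := by
  cases A with
  | nil => exact (hA rfl).elim
  | cons p A => rw [h.1]; simp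

/-- Module B2. -/
theorem chordSplit (S : TriSphere) : ChordSplitStatement S := by
  intro R L1 L2 Q b1 b2 hR hL1 hL2 hQ
  obtain ⟨Q', q1, q2, q3⟩ := exists_rev hQ.walk
  have hL1ne := isW_ne_nil hL1 hQ.b12
  have hL2ne := isW_ne_nil hL2 hQ.b12.symm
  have hb1 := isW_head_mem hL1 hL1ne
  have hb2 := isW_head_mem hL2 hL2ne
  have hvnd := hR.vnd
  have hend := hR.end_
  rw [List.map_append, List.nodup_append'] at hvnd hend
  obtain ⟨v1, v2, v3⟩ := hvnd
  obtain ⟨e1, e2, e3⟩ := hend
  have hQend : (Q.map Prod.snd).Nodup := edges_nodup hQ.walk hQ.nd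
  -- vertices of Q'
  have hQ'nd : (Q'.map Prod.fst ++ [b1]).Nodup := by
    rw [q2, List.nodup_reverse]; exact hQ.nd
  have hQ'v : ∀ v ∈ Q'.map Prod.fst, v ≠ b1 ∧ (v ∈ Q.map Prod.fst ∨ v = b2) := by
    intro v hv
    constructor
    · rintro rfl
      rw [List.nodup_append'] at hQ'nd
      exact hQ'nd.2.2 hv (by simp)
    · have h1 : v ∈ Q'.map Prod.fst ++ [b1] := List.mem_append_left _ hv
      rw [q2, List.mem_reverse, List.mem_append, List.mem_singleton] at h1
      exact h1
  have hQ'e : ∀ e, e ∈ Q'.map Prod.snd ↔ e ∈ Q.map Prod.snd := by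
    intro e; rw [q3, List.mem_reverse]
  have hQL : ∀ e ∈ Q.map Prod.snd, e ∉ L1.map Prod.snd ∧ e ∉ L2.map Prod.snd := by
    intro e he
    have h1 := (hQ.ed e he).2
    rw [List.map_append, List.mem_append] at h1
    tauto
  -- the two closed walks
  have w1 : S.IsW b1 (L1 ++ Q') b1 := isW_append hL1 q1
  have w2 : S.IsW b2 (L2 ++ Q) b2 := isW_append hL2 hQ.walk
  have n1 : ((L1 ++ Q').map Prod.fst).Nodup := by
    rw [List.map_append, List.nodup_append']
    refine ⟨v1, ?_, ?_⟩
    · exact (List.nodup_append'.1 hQ'nd).1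
    · intro v hv hv'
      obtain ⟨h1, h2⟩ := hQ'v v hv'
      rcases h2 with h2 | h2
      · rcases hQ.int v h2 with h3 | h3
        · exact h1 h3
        · exact h3 (by rw [List.map_append]; exact List.mem_append_left _ hv)
      · rw [h2] at hv
        exact v3 hv hb2
  have n2 : ((L2 ++ Q).map Prod.fst).Nodup := by
    rw [List.map_append, List.nodup_append']
    refine ⟨v2, (List.nodup_append'.1 hQ.nd).1, ?_⟩
    intro v hv hv'
    rcases hQ.int v hv' with h3 | h3
    · rw [h3] at hv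
      exact v3 hb1 hv
    · exact h3 (by rw [List.map_append]; exact List.mem_append_right _ hv)
  have m1 : ((L1 ++ Q').map Prod.snd).Nodup := by
    rw [List.map_append, List.nodup_append']
    refine ⟨e1, by rw [q3, List.nodup_reverse]; exact hQend, ?_⟩
    intro e he he'
    exact (hQL e ((hQ'e e).1 he')).1 he
  have m2 : ((L2 ++ Q).map Prod.snd).Nodup := by
    rw [List.map_append, List.nodup_append']
    refine ⟨e2, hQend, ?_⟩
    intro e he he'
    exact (hQL e he').2 he
  -- the boundary of R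
  have hbdR : ∀ e, ¬ (S.l e ∈ R ↔ S.r e ∈ R) ↔ (e ∈ L1.map Prod.snd ∨ e ∈ L2.map Prod.snd) := by
    intro e
    have := hR.bd_eq e
    rw [List.map_append, List.mem_append] at this
    exact this
  have hL1e : ∃ e, e ∈ L1.map Prod.snd := by
    cases L1 with
    | nil => exact (hL1ne rfl).elim
    | cons p L1 => exact ⟨p.2, by simp⟩
  have hQe : ∃ e, e ∈ Q.map Prod.snd := by
    have := hQ.ne
    cases Q with
    | nil => exact (this rfl).elim
    | cons p Q => exact ⟨p.2, by simp⟩
  have hRne : R ≠ ∅ := by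
    rintro rfl
    obtain ⟨e, he⟩ := hL1e
    exact (hbdR e).2 (Or.inl he) (by simp)
  have hRuniv : R ≠ Set.univ := by
    rintro rfl
    obtain ⟨e, he⟩ := hL1e
    exact (hbdR e).2 (Or.inl he) (by simp)
  -- homology
  obtain ⟨N, hN⟩ := S.hom {e | e ∈ (L1 ++ Q').map Prod.snd} (fun v => cyc_even w1 m1 v)
  have hN' : ∀ e, ¬ (S.l e ∈ N ↔ S.r e ∈ N) ↔ (e ∈ L1.map Prod.snd ∨ e ∈ Q.map Prod.snd) := by
    intro e
    rw [← hN e]
    simp only [Set.mem_ofPred_eq, List.map_append, List.mem_append, hQ'e]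
  have hsub : ∀ e ∈ S.bd (N ∩ Rᶜ), e ∈ S.bd R := by
    intro e he hiff
    apply he
    by_cases c : S.l e ∈ R
    · have c' : S.r e ∈ R := hiff.1 c
      exact iff_of_false (fun h4 => h4.2 c) (fun h4 => h4.2 c')
    · have c' : S.r e ∉ R := fun h3 => c (hiff.2 h3)
      have h5 : S.l e ∈ N ↔ S.r e ∈ N := by
        by_contra hcon
        rcases (hN' e).1 hcon with h6 | h6
        · exact (hbdR e).2 (Or.inl h6) hiff
        · rcases (hQ.ed e h6).1 with h7 | h7
          · exact c h7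
          · exact c' h7
      constructor
      · rintro ⟨h6, -⟩; exact ⟨h5.1 h6, c'⟩
      · rintro ⟨h6, -⟩; exact ⟨h5.2 h6, c⟩
  obtain ⟨R1, hR1R, hR1⟩ : ∃ R1 : Set S.T, R1 ⊆ R ∧
      ∀ e, ¬ (S.l e ∈ R1 ↔ S.r e ∈ R1) ↔ (e ∈ L1.map Prod.snd ∨ e ∈ Q.map Prod.snd) := by
    rcases region_dual hR _ hsub with h1 | h1 | h1 | h1
    · refine ⟨N, fun t ht => ?_, hN'⟩
      by_contra hcon
      have : t ∈ N ∩ Rᶜ := ⟨ht, hcon⟩
      rw [h1] at this
      exact this
    · exfalso
      apply hRne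
      ext t
      have : t ∈ N ∩ Rᶜ := by rw [h1]; trivial
      exact iff_of_false this.2 (fun h => h)
    · exfalso
      apply hRne
      ext t
      refine iff_of_false (fun ht => ?_) (fun h => h)
      have h2 := ht
      rw [← h1] at h2
      exact h2.2 ht
    · refine ⟨Nᶜ, fun t ht => ?_, fun e => ?_⟩
      · by_contra hcon
        have : t ∈ N ∩ Rᶜ := by rw [h1]; exact hcon
        exact ht this.1
      · rw [← hN' e]
        simp only [Set.mem_compl_iff]
        tauto
  have hR2 : ∀ e, ¬ (S.l e ∈ R \ R1 ↔ S.r e ∈ R \ R1) ↔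
      (e ∈ L2.map Prod.snd ∨ e ∈ Q.map Prod.snd) := by
    intro e
    have h1 := hR1 e
    have h2 := hbdR e
    have h3 := hQL e
    have h4 : e ∈ L1.map Prod.snd → e ∈ L2.map Prod.snd → False := fun a b => e3 a b
    have h5 := @hR1R (S.l e)
    have h6 := @hR1R (S.r e)
    simp only [Set.mem_sdiff]
    by_cases c1 : e ∈ L1.map Prod.snd
    · have c2 : e ∉ L2.map Prod.snd := h4 c1
      have c3 : e ∉ Q.map Prod.snd := fun h => (h3 h).1 c1
      simp only [c1, c2, c3, true_or, or_self, or_false, iff_true, iff_false] at h1 h2 ⊢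
      tauto
    · by_cases c2 : e ∈ L2.map Prod.snd
      · have c3 : e ∉ Q.map Prod.snd := fun h => (h3 h).2 c2
        simp only [c1, c2, c3, or_true, or_self, or_false, iff_true, iff_false] at h1 h2 ⊢
        tauto
      · by_cases c3 : e ∈ Q.map Prod.snd
        · simp only [c1, c2, c3, or_true, or_self, or_false, iff_true, iff_false] at h1 h2 ⊢
          tauto
        · simp only [c1, c2, c3, or_self, iff_false] at h1 h2 ⊢
          tauto
  have nonempty_of : ∀ M : Set S.T, (∃ e, ¬ (S.l e ∈ M ↔ S.r e ∈ M)) → M.Nonempty := by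
    rintro M ⟨e, he⟩
    by_contra hcon
    rw [Set.not_nonempty_iff_eq_empty] at hcon
    rw [hcon] at he
    exact he (by simp)
  refine ⟨Q', R1, R \ R1, q1, q2, ?_, ?_, ?_, ?_, ?_, ?_⟩
  · exact Set.union_sdiff_cancel hR1R
  · exact Set.disjoint_sdiff_right
  · obtain ⟨e, he⟩ := hL1e
    exact nonempty_of _ ⟨e, (hR1 e).2 (Or.inl he)⟩
  · obtain ⟨e, he⟩ := hQe
    exact nonempty_of _ ⟨e, (hR2 e).2 (Or.inr he)⟩
  · refine ⟨w1, n1, m1, ?_, fun e => ?_⟩
    · simp [hL1ne]
    · rw [List.map_append, List.mem_append, hQ'e]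
      exact hR1 e
  · refine ⟨w2, n2, m2, ?_, fun e => ?_⟩
    · simp [hL2ne]
    · rw [List.map_append, List.mem_append]
      exact hR2 e

end Helper83_PP
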